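import Pool.Agent.X324.CG.PolyInv

set_option autoImplicit false

/-!
# The movable cone conjecture for `(A × F) / G`, if the effective movable cone of `F / G` is polyhedral

`A = V / Λ` is an abelian variety and `F` a normal projective `ℚ`-factorial variety with free class
group `Cl(F) = ℤ^ρ`, given by its Cox ring `R = ⨁ H⁰(F, O_F(β))`. Let `X = (A × F) / G` be a projective
quotient, where a finite group `G` acts on both factors; the action may have fixed points and fixed
divisors. The classes of `F` which are invariant under `G` form the space `N^1(F / G)`, and the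
effective classes in the closed movable cone among them the cone `Mov^e(F / G)`. The only hypothesis is
that `Mov^e(F / G)` is rational polyhedral; for instance, `F / G` is a Mori dream space, or its Picard
number is one. The variety `F` need not be a Mori dream space, its group of birational automorphisms
may be infinite, and nothing is assumed about the cone conjecture for `F` or about the canonical class.
(For instance, `F` may be any double covering of `ℙ^n` or of a Fano variety with the covering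
involution.) The theorem says that the effective movable cone `Mov^e(X)` has a rational polyhedral
fundamental domain for every group of linear automorphisms of `N^1(X)` which preserves `Mov^e(X)` and
the integral classes and which contains the pullbacks by the automorphisms of `X` of the form
`(f, id)`, where `f` is an affine transformation of `A`. (The image of the group of
pseudo-automorphisms of `X`, which is `Bir(X)` if `X` is smooth with `K_X ≡ 0`, is such a group.)
Moreover `Mov^e(X)` is the convex hull of the rational classes in the closed movable cone, and its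
faces form finitely many orbits.

The proof: `N^1(X)` is the product of a space of hermitian forms on `V` and of the space of the
`G`-invariant classes of `F`. The first factor is treated by reduction theory (Voronoi's theory of
perfect forms for an order in a real algebra with a positive involution); units in a subgroup of finite
index extend to affine transformations `f` such that `(f, id)` normalises the group `Γ`. The cone of
the second factor is polyhedral by hypothesis; the averages over `G` show that it is the closure of the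
cone spanned by the invariant movable classes. Then a Dirichlet domain of a rational linear form with
trivial stabiliser is a fundamental domain.

`Cl`, `Grp`, `IsQuotient`, `Inv`, `Sheaf`, `N1`, `integral`, `effective`, `movable`, `movCone`,
`effCone`, `coneHull`, `Normalizes` and `IsPullback` are defined in `Pool.Agent.X324.CF.Defs`;
`IsCoxRing`, `MovableF` and `real` in `Pool.Agent.X324.CG.Defs`; `IsTorusQuotient` in
`Pool.Agent.W594.SYZ.Defs2`; `IsPositiveForm` in `Pool.Agent.W594.SYZ.TQDefs`; `LinGrp`, `Preserves`,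
`IsFundDomain` in `Pool.Agent.Y167.Stm`; `cone` in `Pool.Agent.Y167.ConeDef`; `IsFace` in
`Pool.Agent.Y167.StmFace`.
-/

namespace Pool.Agent.Results.MP_e39d36_ag.PolyhedralQuotient

open Pool.Agent.W594.SYZ2 Pool.Agent.TH735.AQ Pool.Agent.X324.CF
open Pool.Agent.X324.CG (IsCoxRing MovableF real)
open Pool.Agent.Y167 (cone IsFace)
open Pool.Agent.Y167.CC (LinGrp Preserves IsFundDomain)

section F

variable {R : Type*} [CommRing R] [Algebra ℂ R] {ρ : ℕ} (𝒜 : Cl ρ → Submodule ℂ R)

/-- The closed movable cone of `F`: the closure of the convex cone spanned by the movable classes. -/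
def movF : Set (Fin ρ → ℝ) := closure (coneHull {b | ∃ β, MovableF 𝒜 β ∧ b = real β})

/-- The effective cone of `F`: the convex cone spanned by the classes of effective divisors. -/
def effF : Set (Fin ρ → ℝ) := coneHull {b | ∃ β, (∃ r ∈ 𝒜 β, r ≠ 0) ∧ b = real β}

end F

/-- The real space `N^1(F / G)` of the classes of `F` which are invariant under `Γ`. -/
def invF {V R : Type*} [NormedAddCommGroup V] [NormedSpace ℂ V] [CommRing R] [Algebra ℂ R] {ρ : ℕ}
    (𝒜 : Cl ρ → Submodule ℂ R) (Γ : Grp V R) : Set (Fin ρ → ℝ) :=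
  Submodule.span ℝ {b | ∃ β, Inv 𝒜 Γ β ∧ b = real β}

/-- The effective movable cone of `F / G` is rational polyhedral. -/
def QuotientPolyhedral {V R : Type*} [NormedAddCommGroup V] [NormedSpace ℂ V] [CommRing R]
    [Algebra ℂ R] {ρ : ℕ} (𝒜 : Cl ρ → Submodule ℂ R) (Γ : Grp V R) : Prop :=
  ∃ T : Finset (Fin ρ → ℝ), (∀ s ∈ T, ∃ β, s = real β) ∧
    movF 𝒜 ∩ effF 𝒜 ∩ invF 𝒜 Γ = cone T

/-- The space `N^1(X)`. (In the absolute case the linear subspace `E` of `V` of the general
definitions is `V` itself, embedded by the identity map.) -/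
abbrev NS {V R : Type*} [NormedAddCommGroup V] [NormedSpace ℂ V] [CommRing R] [Algebra ℂ R] {ρ : ℕ}
    (𝒜 : Cl ρ → Submodule ℂ R) (Γ : Grp V R) : Type _ :=
  N1 𝒜 Γ (LinearMap.id : V →ₗ[ℂ] V)

/-- The closed movable cone of `X`. -/
def mov {V R : Type*} [NormedAddCommGroup V] [NormedSpace ℂ V] [CommRing R] [Algebra ℂ R] {ρ : ℕ}
    (𝒜 : Cl ρ → Submodule ℂ R) (Γ : Grp V R) : Set (NS 𝒜 Γ) :=
  movCone 𝒜 Γ LinearMap.id

/-- The effective movable cone of `X`. -/
def movEff {V R : Type*} [NormedAddCommGroup V] [NormedSpace ℂ V] [CommRing R] [Algebra ℂ R] {ρ : ℕ}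
    (𝒜 : Cl ρ → Submodule ℂ R) (Γ : Grp V R) : Set (NS 𝒜 Γ) :=
  mov 𝒜 Γ ∩ effCone 𝒜 Γ LinearMap.id

/-- The rational classes: those which have a positive integral multiple. -/
def rational {V R : Type*} [NormedAddCommGroup V] [NormedSpace ℂ V] [CommRing R] [Algebra ℂ R]
    {ρ : ℕ} (𝒜 : Cl ρ → Submodule ℂ R) (Γ : Grp V R) : Set (NS 𝒜 Γ) :=
  {x | ∃ n : ℕ, 0 < n ∧ (n : ℝ) • x ∈ integral 𝒜 Γ LinearMap.id}

/-- `𝒢` is a group of linear automorphisms of `N^1(X)` which preserves the integral classes and the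
effective movable cone, and which contains the pullbacks by all automorphisms of `X` of the form
`(f, id)`, where `f` is an affine transformation of `V`. -/
structure IsLargeGroup {V R : Type*} [NormedAddCommGroup V] [NormedSpace ℂ V] [CommRing R]
    [Algebra ℂ R] {ρ : ℕ} {𝒜 : Cl ρ → Submodule ℂ R} {Γ : Grp V R}
    (𝒢 : LinGrp (NS 𝒜 Γ)) : Prop where
  int : Preserves 𝒢 (integral 𝒜 Γ LinearMap.id)
  mov_eff : Preserves 𝒢 (movEff 𝒜 Γ)
  aff : ∀ f : V ≃ᵃ[ℂ] V, Normalizes Γ f → ∀ g, IsPullback f g → g ∈ 𝒢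

/-- Let `X = (V × F) / Γ` be a projective quotient such that the effective movable cone of `F / G` is
rational polyhedral. There is a finite set `S` of integral classes such that the cone spanned by `S` is
contained in the effective movable cone of `X` and is a fundamental domain for the action of `𝒢` on
this cone. Moreover the effective movable cone is the convex hull of the rational classes in the closed
movable cone, and its faces form finitely many orbits under `𝒢`. -/
theorem result {V R : Type*} [NormedAddCommGroup V] [NormedSpace ℂ V] [FiniteDimensional ℂ V]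
    [CommRing R] [IsDomain R] [Algebra ℂ R] {ρ : ℕ}
    (𝒜 : Cl ρ → Submodule ℂ R) [GradedAlgebra 𝒜] (u : Cl ρ) (hF : IsCoxRing 𝒜 u)
    (Γ : Grp V R) (hX : IsQuotient 𝒜 u Γ) (hpoly : QuotientPolyhedral 𝒜 Γ)
    (hproj : ∃ (L : Sheaf 𝒜 Γ) (H : V → V → ℂ), L.IsChern H ∧ IsPositiveForm H)
    (𝒢 : LinGrp (NS 𝒜 Γ)) (h𝒢 : IsLargeGroup 𝒢) :
    (∃ S : Finset (NS 𝒜 Γ), ↑S ⊆ integral 𝒜 Γ LinearMap.id ∧ cone S ⊆ movEff 𝒜 Γ ∧
      IsFundDomain 𝒢 (movEff 𝒜 Γ) (cone S)) ∧
    movEff 𝒜 Γ = convexHull ℝ (mov 𝒜 Γ ∩ rational 𝒜 Γ) ∧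
    ∃ 𝓕 : Set (Set (NS 𝒜 Γ)), 𝓕.Finite ∧ (∀ Φ ∈ 𝓕, IsFace Φ (movEff 𝒜 Γ)) ∧
      ∀ Φ, IsFace Φ (movEff 𝒜 Γ) → ∃ g ∈ 𝒢, ∃ Φ' ∈ 𝓕, Φ = g '' Φ' := by
  obtain ⟨H₀, Rl⟩ := rel_id hX hproj
  obtain ⟨d, D⟩ := hF.sys_mov (𝒮 := gal Γ) fun _ h => (Pool.Agent.X324.CG.gal_aut hX h).1
  obtain ⟨T, hT, hTc⟩ := hpoly
  have hK : Pool.Agent.X324.CG.KQ {β | MovableF 𝒜 β} ⊤ = movF 𝒜 := by
    have h1 : {b : Fin ρ → ℝ | ∃ β, β ∈ {β | MovableF 𝒜 β} ∧ β ∈ (⊤ : AddSubgroup (Cl ρ)) ∧
        b = rv β} = {b | ∃ β, MovableF 𝒜 β ∧ b = real β} := by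
      ext b
      exact ⟨fun ⟨β, h1, _, h2⟩ => ⟨β, h1, h2⟩, fun ⟨β, h1, h2⟩ => ⟨β, h1, AddSubgroup.mem_top β, h2⟩⟩
    change closure (coneHull _) = closure (coneHull _)
    rw [h1]
  have hE : Pool.Agent.X324.CG.EQ 𝒜 ⊤ = effF 𝒜 := by
    have h1 : {b : Fin ρ → ℝ | ∃ β, (∃ r ∈ 𝒜 β, r ≠ 0) ∧ β ∈ (⊤ : AddSubgroup (Cl ρ)) ∧
        b = rv β} = {b | ∃ β, (∃ r ∈ 𝒜 β, r ≠ 0) ∧ b = real β} := by
      ext b
      exact ⟨fun ⟨β, h1, _, h2⟩ => ⟨β, h1, h2⟩, fun ⟨β, h1, h2⟩ => ⟨β, h1, AddSubgroup.mem_top β, h2⟩⟩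
    change coneHull _ = coneHull _
    rw [h1]
  have hB : ∀ b, b ∈ Bs 𝒜 Γ ↔ b ∈ invF 𝒜 Γ := fun b => Iff.rfl
  refine Pool.Agent.X324.CG.main7 D hX (S₀ := T) (fun s hs => ?_) (fun b hb hb' hb2 => ?_) Rl
    (hF.good_mov hX D.base) 𝒢 h𝒢.int h𝒢.mov_eff fun f hf _ g hg => h𝒢.aff f hf g hg
  · rw [hK, hE, hB]
    have h1 : s ∈ movF 𝒜 ∩ effF 𝒜 ∩ invF 𝒜 Γ := by
      rw [hTc]
      exact Pool.Agent.Y167.mem_cone_self hs
    exact ⟨h1.1, h1.2, hT s hs⟩
  · rw [hK] at hb
    rw [hE] at hb'
    rw [hB] at hb2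
    rw [← hTc]
    exact ⟨⟨hb, hb'⟩, hb2⟩

end Pool.Agent.Results.MP_e39d36_ag.PolyhedralQuotient
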