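import Pool.Agent.X324.CG.Fin

set_option autoImplicit false

/-!
# The movable cone conjecture: reduction to the factors of the Beauville–Bogomolov decomposition

A smooth projective variety `Y` with `K_Y ≡ 0` is of the form `Y = (A × F) / G`, where `A = V / Λ` is an
abelian variety, `F = ∏ F i` is a simply connected product of irreducible holomorphic symplectic and of
strict Calabi–Yau manifolds, and `G` is a finite group which acts on both factors. The theorem says: if
the movable cone conjecture holds for all `F i` (and only finitely many pseudo-automorphisms of `F` act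
trivially on `Cl(F)`, which is known if `F` is simply connected with `K_F ≡ 0`), then it holds for `Y`:
the effective movable cone of `Y` has a rational polyhedral fundamental domain for the action of
`Bir(Y)`. Moreover this cone is the convex hull of the rational classes in the closed movable cone, and
its faces form finitely many orbits.

So the conjecture is reduced to strict Calabi–Yau manifolds, because it is known for irreducible
holomorphic symplectic manifolds (Markman, Amerik–Verbitsky). The theorem holds for all projective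
quotients `X = (A × F) / G`, with pseudo-automorphisms instead of birational automorphisms; `X` may be
singular, the action of `G` may have fixed points, the elements of `G` may permute the factors `F i`, and
there is no condition on the canonical class. Here `F` is any normal projective `ℚ`-factorial variety
with free class group `Cl(F) = ℤ^ρ`, given by its Cox ring `R = ⨁ H⁰(F, O_F(β))`, which need not be
finitely generated.

The proof: `N^1(X)` is the product of a space of hermitian forms on `V` and of the space of the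
`G`-invariant classes of `F`. The first factor is treated by reduction theory. For the second, a
Dirichlet domain for `PsAut(F)` acting on the effective movable cone of `F` is constructed; only finitely
many elements of the group fix an interior point of it, therefore the translates of the domain which meet
the interior of the cone of invariant classes form finitely many orbits under the centraliser of `G`
(modulo the torus), which consists of pseudo-automorphisms `φ` of `F` such that `(id, φ)` normalises the
group `Γ`. A sheaf on `X` is movable if the norms of sections have no common divisor; here primes of the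
Cox ring are used.

`Cl`, `Semistable`, `SemiampleF`, `Induces`, `Scal`, `Elt`, `Grp`, `IsQuotient`, `Sheaf`, `N1`,
`integral`, `effective`, `movable`, `movCone` and `effCone` are defined in `Pool.Agent.X324.CF.Defs`;
`IsCoxRing`, `MovableF`, `IsProduct`, `movF`, `effF`, `HasCover`, `FiniteKernel`, `IsPsAut`, `OnFactor`,
`NormalizesX` and `IsPullbackX` in `Pool.Agent.X324.CG.Defs`; `IsTorusQuotient` in
`Pool.Agent.W594.SYZ.Defs2`; `IsPositiveForm` in `Pool.Agent.W594.SYZ.TQDefs`; `LinGrp`, `Preserves`,
`IsFundDomain` in `Pool.Agent.Y167.Stm`; `cone` in `Pool.Agent.Y167.ConeDef`; `IsFace` in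
`Pool.Agent.Y167.StmFace`.
-/

namespace Pool.Agent.Results.MP_e39d36_ag.Reduction

open Pool.Agent.W594.SYZ2 Pool.Agent.TH735.AQ Pool.Agent.X324.CF
open Pool.Agent.X324.CG (IsCoxRing IsProduct movF effF HasCover FiniteKernel IsPsAut OnFactor
  NormalizesX IsPullbackX)
open Pool.Agent.Y167 (cone IsFace)
open Pool.Agent.Y167.CC (LinGrp Preserves IsFundDomain)

/-- The space `N^1(X)`. (In the absolute case the linear subspace `E` of `V` of the general
definitions is `V` itself, embedded by the identity map.) -/
abbrev NS {V R : Type*} [NormedAddCommGroup V] [NormedSpace ℂ V] [CommRing R] [Algebra ℂ R] {ρ : ℕ}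
    (𝒜 : Cl ρ → Submodule ℂ R) (Γ : Grp V R) : Type _ :=
  N1 𝒜 Γ (LinearMap.id : V →ₗ[ℂ] V)

/-- The closed movable cone of `X`. -/
def mov {V R : Type*} [NormedAddCommGroup V] [NormedSpace ℂ V] [CommRing R] [Algebra ℂ R] {ρ : ℕ}
    (𝒜 : Cl ρ → Submodule ℂ R) (Γ : Grp V R) : Set (NS 𝒜 Γ) :=
  movCone 𝒜 Γ LinearMap.id

/-- The effective movable cone of `X`. -/
def movEff {V R : Type*} [NormedAddCommGroup V] [NormedSpace ℂ V] [CommRing R] [Algebra ℂ R] {ρ : ℕ}
    (𝒜 : Cl ρ → Submodule ℂ R) (Γ : Grp V R) : Set (NS 𝒜 Γ) :=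
  mov 𝒜 Γ ∩ effCone 𝒜 Γ LinearMap.id

/-- The rational classes: those which have a positive integral multiple. -/
def rational {V R : Type*} [NormedAddCommGroup V] [NormedSpace ℂ V] [CommRing R] [Algebra ℂ R]
    {ρ : ℕ} (𝒜 : Cl ρ → Submodule ℂ R) (Γ : Grp V R) : Set (NS 𝒜 Γ) :=
  {x | ∃ n : ℕ, 0 < n ∧ (n : ℝ) • x ∈ integral 𝒜 Γ LinearMap.id}

/-- `𝒢` is a group of linear automorphisms of `N^1(X)` which preserves the integral classes and the
effective movable cone, and which contains the pullbacks by all pseudo-automorphisms of `X` induced by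
pairs `(f, φ)` of an affine transformation of `V` and a pseudo-automorphism of `F`. The image of the
group of pseudo-automorphisms of `X` (which is `Bir(X)`, if `K_X ≡ 0` and `X` is smooth) has these
properties. -/
structure IsPsAutGroup {V R : Type*} [NormedAddCommGroup V] [NormedSpace ℂ V] [CommRing R]
    [Algebra ℂ R] {ρ : ℕ} {𝒜 : Cl ρ → Submodule ℂ R} {Γ : Grp V R}
    (𝒢 : LinGrp (NS 𝒜 Γ)) : Prop where
  int : Preserves 𝒢 (integral 𝒜 Γ LinearMap.id)
  mov_eff : Preserves 𝒢 (movEff 𝒜 Γ)
  aut : ∀ a : Elt V R, NormalizesX 𝒜 Γ a → IsPsAut 𝒜 a.2 → ∀ g, IsPullbackX a g → g ∈ 𝒢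

/-- Let `F` be the product of varieties `F i`, `i ∈ κ`, such that for each `i` the effective movable
cone of `F i` is covered by the translates of a rational polyhedral cone under the pseudo-automorphisms
of `F i`, and let only finitely many pseudo-automorphisms of `F` act trivially on `Cl(F)`. Let
`X = (V × F) / Γ` be a projective quotient. There is a finite set `S` of integral classes such that the
cone spanned by `S` is contained in the effective movable cone and is a fundamental domain for the action
of `𝒢` on this cone. Moreover the effective movable cone is the convex hull of the rational classes in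
the closed movable cone, and its faces form finitely many orbits under `𝒢`. -/
theorem result {V R κ : Type*} [NormedAddCommGroup V] [NormedSpace ℂ V] [FiniteDimensional ℂ V]
    [CommRing R] [IsDomain R] [Algebra ℂ R] [DecidableEq κ] [Fintype κ] {ρ : ℕ}
    (𝒜 : Cl ρ → Submodule ℂ R) [GradedAlgebra 𝒜] (u : Cl ρ) (hF : IsCoxRing 𝒜 u)
    (c : Fin ρ → κ) (hprod : IsProduct 𝒜 c)
    (hcone : ∀ i, HasCover 𝒜 (movF 𝒜 c i ∩ effF 𝒜 c i) {φ | IsPsAut 𝒜 φ ∧ OnFactor 𝒜 c i φ})
    (hker : FiniteKernel 𝒜 {φ | IsPsAut 𝒜 φ}) (Γ : Grp V R) (hX : IsQuotient 𝒜 u Γ)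
    (hproj : ∃ (L : Sheaf 𝒜 Γ) (H : V → V → ℂ), L.IsChern H ∧ IsPositiveForm H)
    (𝒢 : LinGrp (NS 𝒜 Γ)) (h𝒢 : IsPsAutGroup 𝒢) :
    (∃ S : Finset (NS 𝒜 Γ), ↑S ⊆ integral 𝒜 Γ LinearMap.id ∧ cone S ⊆ movEff 𝒜 Γ ∧
      IsFundDomain 𝒢 (movEff 𝒜 Γ) (cone S)) ∧
    movEff 𝒜 Γ = convexHull ℝ (mov 𝒜 Γ ∩ rational 𝒜 Γ) ∧
    ∃ 𝓕 : Set (Set (NS 𝒜 Γ)), 𝓕.Finite ∧ (∀ Φ ∈ 𝓕, IsFace Φ (movEff 𝒜 Γ)) ∧
      ∀ Φ, IsFace Φ (movEff 𝒜 Γ) → ∃ g ∈ 𝒢, ∃ Φ' ∈ 𝓕, Φ = g '' Φ' := by
  obtain ⟨H₀, Rl⟩ := rel_id hX hproj
  obtain ⟨d, D, S₀, hS₀, hcov⟩ := Pool.Agent.X324.CG.cover_mov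
    (𝒮 := Pool.Agent.X324.CG.psautF 𝒜) hF hprod (fun _ h => h) hcone
  exact Pool.Agent.X324.CG.main3 D hX (fun _ h => (Pool.Agent.X324.CG.gal_aut hX h).1) hS₀ hcov hker
    Rl (hF.good_mov hX D.base) (fun _ => True) (fun _ _ _ _ _ => trivial) (fun _ _ => trivial)
    𝒢 h𝒢.int h𝒢.mov_eff (fun a ha ha2 _ _ g hg => h𝒢.aut a ha ha2 g hg)

end Pool.Agent.Results.MP_e39d36_ag.Reduction
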